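import Pool.Agent.Run7.h794.EX.Multi
import Pool.Agent.N625.PT.H

/-!
# The Möbius function and shifted primes: all the multiples of all the shifts near a random integer whose blocks of
# digits can be exchanged

The shift `1` of the problem is replaced by `h q`, for ALL `1 ≤ h ≤ k ^ J` and ALL the integers `q` at a distance of at most
`k ^ W` from `c + κ v`, where `v < b ^ k` is a random integer with ANY distribution for which after every beginning of the
word of its digits two blocks of `L` digits can be exchanged (see `Exchangeable`). Examples: the uniform distribution on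
the integers with `k` digits whose sum of digits is a prescribed number between `δ k` and `(b - 1 - δ) k` (`L = 2`, the
blocks `01` and `10`); the words of an irreducible aperiodic subshift of finite type; Markov chains and Gibbs measures.

From the starting files: the exponential sums over the random integers and the correlations for all the multiples
(`Pool.Agent.N625.PT.flex_tcls`, `Pool.Agent.N625.PT.t_corr`), Davenport's theorem, Vaughan's identity.
From Mathlib: `ArithmeticFunction.vonMangoldt`: the function `Λ`; `ArithmeticFunction.moebius`: the Möbius function.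
-/

set_option autoImplicit false

namespace Pool.Agent.Results.MP_0bfb7f_nt.ExchangeableMultiples

open Finset
open Pool.Agent.Run7.h794.EX (Exchangeable)

/-- The Möbius function on the integers, `0` at the integers `m ≤ 0`. -/
def mu (m : ℤ) : ℤ := if 1 ≤ m then ArithmeticFunction.moebius m.toNat else 0

open Classical in
/-- Let `r`, `b ≥ 2`, `L ≥ 1`, `0 < η ≤ 1`, `t`, `κ ≠ 0`, `B`, `A`, `J`, `W` and `U` be fixed, let `k` be large and
`N = b ^ k`. Let `p` be an exchangeable distribution (with the parameters `L`, `η`, `t`) on the integers `v < N` and let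
`c` be an arbitrary integer with `|c| ≤ B N`. For each of at most `k ^ A` indices `l` let `α l ≥ 1`, let
`a l j * n + d l j` (`j < r`) be arbitrary linear forms with nonnegative coefficients `≤ b ^ (B k)` and let `g l` be an arbitrary
function on the integers with values of modulus at most `1`.

Then the random integer `v` with the distribution `p` has with a probability of at least `1 - 1 / k ^ U` the following
property: for ALL integers `q` with `|q - (c + κ * v)| ≤ k ^ W`, ALL `1 ≤ h ≤ k ^ J`, all `l` and all `X ≤ k ^ A N / α l`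
`|∑ n ≤ X, g l n * (∏ j, Λ (a l j * n + d l j)) * μ (α l * n + h * q)| ≤ N / k ^ U`.
(For `r = 1`, `α = a = 1`, `d = 0` and `g = 1` this is the sum `∑ n ≤ X, Λ (n) μ (n + h q)`, the sum of the problem with
the shift `h q` instead of `1`.) -/
theorem result (r b L : ℕ) (hb : 2 ≤ b) (hL : 1 ≤ L) (η : ℝ) (hη0 : 0 < η) (hη1 : η ≤ 1) (t : ℕ) (κ : ℤ)
    (hκ : κ ≠ 0) (B A J W U : ℕ) :
    ∃ k₀ : ℕ, ∀ k : ℕ, k₀ ≤ k → ∀ p : ℕ → ℝ, Exchangeable b L η t k p → ∀ c : ℤ, |c| ≤ B * (b : ℤ) ^ k →
      ∀ M : ℕ, M ≤ k ^ A → ∀ (α : Fin M → ℕ) (a d : Fin M → Fin r → ℕ) (g : Fin M → ℕ → ℂ),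
        (∀ l, 1 ≤ α l) → (∀ l j, a l j ≤ b ^ (B * k) ∧ d l j ≤ b ^ (B * k)) → (∀ l n, ‖g l n‖ ≤ 1) →
      ∑ v ∈ range (b ^ k), (if ∀ q : ℤ, |q - (c + κ * v)| ≤ (k : ℤ) ^ W → ∀ h : ℕ, 1 ≤ h → h ≤ k ^ J →
          ∀ l, ∀ X : ℕ, α l * X ≤ k ^ A * b ^ k →
          ‖∑ n ∈ Icc 1 X, g l n * (∏ j, (ArithmeticFunction.vonMangoldt (a l j * n + d l j) : ℂ)) *
            (mu (α l * n + h * q) : ℂ)‖ ≤ (b : ℝ) ^ k / (k : ℝ) ^ U
        then 0 else p v) ≤ 1 / (k : ℝ) ^ U := by
  obtain ⟨k₀, h0⟩ := Pool.Agent.Run7.h794.EX.multi 1 hb (fun _ => κ) (fun _ => Pool.Agent.N625.PT.Flex b L η t)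
    (fun i => Pool.Agent.N625.PT.flex_tcls b L hb hL η hη0 hη1 t κ hκ) (fun _ => Pool.Agent.H373R2.T7.muR)
    (fun _ => Pool.Agent.Y885.fine_mu) r B A J W U
  refine ⟨k₀, fun k hk p hp c hc M hM α a d g hα had hg => ?_⟩
  have key := h0 k hk (fun _ => p) (fun i => Pool.Agent.Run7.h794.EX.flex_of hp) (fun _ => c) (fun _ => hc) M hM α a d g hα had hg
  have hmu : ∀ m : ℤ, (mu m : ℂ) = Pool.Agent.H373R2.T7.exI (fun n => ((Pool.Agent.H373R2.T7.muR n : ℝ) : ℂ)) m := by
    intro m
    unfold mu Pool.Agent.H373R2.T7.exI Pool.Agent.H373R2.T7.muR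
    split_ifs <;> simp
  refine le_trans (le_of_eq ?_) key
  symm
  apply sum_nbij' (fun v => v 0) (fun v _ => v)
  · intro v hv
    exact Fintype.mem_piFinset.1 hv 0
  · intro v hv
    exact Fintype.mem_piFinset.2 fun _ => hv
  · intro v _
    funext i
    rw [Subsingleton.elim i 0]
  · intro v _
    rfl
  · intro v hv
    have hprod : ∏ _i : Fin 1, p (v _i) = p (v 0) := by simp
    rw [hprod]
    apply if_congr _ rfl rfl
    constructor
    · intro h1 q hq h hh1 hh2 l X hX
      have h2 := h1 (fun _ => q) (fun i => by rw [Subsingleton.elim i 0]; exact hq) (fun _ => h) (fun _ => ⟨hh1, hh2⟩) l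
        {0} (singleton_nonempty 0) X hX
      simp only [prod_singleton] at h2
      simp only [hmu]
      exact h2
    · intro h1 q hq h hh l I hI X hX
      have hI0 : I = {0} := by
        obtain ⟨i, hi⟩ := hI
        ext j
        rw [mem_singleton]
        constructor
        · intro _; exact Subsingleton.elim _ _
        · intro hj; rw [hj, ← Subsingleton.elim i 0]; exact hi
      have h2 := h1 (q 0) (hq 0) (h 0) (hh 0).1 (hh 0).2 l X hX
      rw [hI0]
      simp only [prod_singleton]
      simp only [hmu] at h2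
      exact h2

end Pool.Agent.Results.MP_0bfb7f_nt.ExchangeableMultiples
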