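import Pool.Agent.Run7.h794.RF.Mu
import Pool.Agent.N384.MQ.Ex
import Pool.Agent.N384.MQ.Quot

/-!
# The von Mangoldt function and the Möbius function with shifts from families of residues with small Fourier coefficients

From Mathlib: `ArithmeticFunction.vonMangoldt`: the function `Λ`; `ArithmeticFunction.moebius`: the function `μ`;
`ZMod.stdAddChar`: the additive character `j ↦ exp (2 π i j / M)` of the integers modulo `M`; `ZMod.val`: the least residue.

The passage from exponential sums to correlations is from the starting files (`Pool.Agent.N625.PT.t_corr`).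

Method: a family of residues modulo `M` with small Fourier coefficients has small exponential sums at all real
frequencies which are not close to integers, its least residues are not concentrated on short intervals, and the large
spectrum of all their multiples is thin (library `Pool.Agent.N384.MQ`). The fixed exponent `V` comes from a compactness
argument. Examples: a lemma of Ajtai, Iwaniec, Komlos, Pintz and Szemeredi on quotients by small primes, the Stepanov type
lemma of Heath-Brown and Konyagin for subgroups (library `H435R3.HBK`, `N825.FC`), and Weyl sums without losses (library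
`H373R2.NB`).
-/

set_option autoImplicit false

namespace Pool.Agent.Results.MP_0bfb7f_nt.ResidueFamilies

open Finset

/-- The Fourier coefficients of the residues `y i`, `i ∈ s`, modulo `q` at the nonzero frequencies are at most
`η` times the number of the residues: `|∑ i ∈ s, e(h y_i / q)| ≤ η |s|` for all `h ≠ 0` modulo `q`. -/
def Flat {ι : Type} (q : ℕ) [NeZero q] (η : ℝ) (s : Finset ι) (y : ι → ZMod q) : Prop :=
  ∀ h : ZMod q, h ≠ 0 → ‖∑ i ∈ s, (ZMod.stdAddChar (h * y i) : ℂ)‖ ≤ η * s.card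

/-- The Möbius function on the integers, `0` at the integers `m ≤ 0`. -/
def mu (m : ℤ) : ℤ := if 1 ≤ m then ArithmeticFunction.moebius m.toNat else 0

open Classical in
/-- **(1)** Let `r`, `κ ≠ 0`, `B`, `A`, `J`, `W`, `U` and `a` be fixed. There is a number `V` such that the following holds
for all large integers `N`. Let `y i`, `i ∈ s`, be a finite family of residues modulo an integer `M` with
`N / log ^ a N ≤ M ≤ N` whose Fourier coefficients at the nonzero frequencies are at most `|s| / log ^ V M`, and let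
`|c| ≤ N`. For each of at most `log ^ A N` indices `l` let `α l ≥ 1`, let `e l j * n + d l j` (`j < r`) be arbitrary linear forms
with nonnegative coefficients `≤ N ^ B` and let `g l` be an arbitrary function with `|g l| ≤ 1`. All the `i ∈ s`, with at most
`|s| / log ^ U N` exceptions, have the following property for ALL the integers `q` at a distance of at most `log ^ W N` from
`c + κ y_i`, ALL the factors `1 ≤ h ≤ log ^ J N`, all `l` and all `X ≤ N log ^ A N / α l`:
`|∑ n ≤ X, g l n * (∏ j, Λ(e l j * n + d l j)) * μ(α l * n + h * q)| ≤ N / log ^ U N`. (For `r = 1`, `α = e = 1`, `d = 0`, `g = 1`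
this is the sum of `Λ(n) μ(n + h q)`.)

**(2)**, **(3)** Examples. The condition of (1) holds modulo all large primes `p` for:
* the quotients `j / r` of the integers `0 ≤ j < S` by the primes `r ≤ R`, if `log ^ (V + 4) p ≤ R < p` and `R ^ 2 ≤ S`; thus
  there are such explicit sets with only `log ^ (3 V + 12) p` members;
* the cosets of all subgroups of the multiplicative group of an order of at least `p ^ (3/8) log ^ (3 V + 1) p`;
* the residues `a b + g(a) + k(b)`, `a ∈ A`, `b ∈ B`, for arbitrary sets with `|A| |B| ≥ p log ^ (2 V) p` and arbitrary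
  functions `g` and `k`;
* the values `f(n)`, `0 ≤ n < x`, of all integer polynomials of degree `d` whose leading coefficient is not divisible by
  `p`, if `x ^ d ≥ p log ^ C p`, where `C` depends on `d` and `V`. -/
theorem result :
    (∀ r : ℕ, ∀ κ : ℤ, κ ≠ 0 → ∀ (B A J W U a : ℕ), ∃ V N₀ : ℕ, ∀ N : ℕ, N₀ ≤ N →
      ∀ M : ℕ, ∀ [NeZero M], M ≤ N → (N : ℝ) ≤ M * Real.log N ^ a →
      ∀ (ι : Type) (s : Finset ι) (y : ι → ZMod M), Flat M (1 / Real.log M ^ V) s y → ∀ c : ℤ, |c| ≤ N →
      ∀ L : ℕ, (L : ℝ) ≤ Real.log N ^ A → ∀ (α : Fin L → ℕ) (e d : Fin L → Fin r → ℕ) (g : Fin L → ℕ → ℂ), (∀ l, 1 ≤ α l) →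
      (∀ l j, e l j ≤ N ^ B ∧ d l j ≤ N ^ B) → (∀ l n, ‖g l n‖ ≤ 1) →
      ((s.filter fun i => ¬ ∀ q : ℤ, |(q : ℝ) - (c + κ * ((y i).val : ℕ))| ≤ Real.log N ^ W →
        ∀ h : ℕ, 1 ≤ h → (h : ℝ) ≤ Real.log N ^ J → ∀ l, ∀ X : ℕ, (α l * X : ℝ) ≤ N * Real.log N ^ A →
        ‖∑ n ∈ Icc 1 X, g l n * (∏ j, (ArithmeticFunction.vonMangoldt (e l j * n + d l j) : ℂ)) *
          (mu (α l * n + h * q) : ℂ)‖ ≤ N / Real.log N ^ U).card : ℝ) ≤ s.card / Real.log N ^ U) ∧
    (∀ V : ℕ, ∃ P₀ : ℕ, ∀ p : ℕ, P₀ ≤ p → ∀ [Fact p.Prime],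
      (∀ R S : ℕ, Real.log p ^ (V + 4) ≤ R → R < p → R ^ 2 ≤ S →
        Flat p (1 / Real.log p ^ V) (((Icc 1 R).filter Nat.Prime) ×ˢ range S)
          (fun z => ((z.2 : ℕ) : ZMod p) * ((z.1 : ℕ) : ZMod p)⁻¹)) ∧
      (∀ (H : Subgroup (ZMod p)ˣ) (s : Finset (ZMod p)ˣ), (∀ u, u ∈ s ↔ u ∈ H) →
        (p : ℝ) ^ (3 / 8 : ℝ) * Real.log p ^ (3 * V + 1) ≤ s.card → ∀ x : ZMod p, x ≠ 0 →
        Flat p (1 / Real.log p ^ V) s (fun u => x * (u : ZMod p))) ∧
      (∀ (A B : Finset (ZMod p)) (g k : ZMod p → ZMod p), (p : ℝ) * Real.log p ^ (2 * V) ≤ A.card * B.card →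
        Flat p (1 / Real.log p ^ V) (A ×ˢ B) (fun z => z.1 * z.2 + g z.1 + k z.2))) ∧
    (∀ d V : ℕ, 1 ≤ d → ∃ C P₀ : ℕ, ∀ p : ℕ, P₀ ≤ p → ∀ [Fact p.Prime] (f : Polynomial ℤ), f.natDegree = d →
      ¬ (p : ℤ) ∣ f.leadingCoeff → ∀ x : ℕ, (p : ℝ) * Real.log p ^ C ≤ (x : ℝ) ^ d →
      Flat p (1 / Real.log p ^ V) (range x) (fun n => ((f.eval (n : ℤ) : ℤ) : ZMod p))) := by
  refine ⟨fun r κ hκ B A J W U a => ?_, fun V => ?_, fun d V hd => ?_⟩
  · obtain ⟨V, N₀, h⟩ := Pool.Agent.Run7.h794.RF.mq_multi 1 r le_rfl (fun _ => κ) (fun _ => hκ) (fun _ => Pool.Agent.H373R2.T7.muR)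
      (fun _ => Pool.Agent.Y885.fine_mu) B A J W U a
    refine ⟨V, N₀, fun N hN M _ hM1 hM2 ι s y hf c hc L hL α e d g hα hed hg => ?_⟩
    have key := h N hN (fun _ => M) (fun _ => hM1) (fun _ => hM2) (fun _ => ι) (fun _ => s) (fun _ => y) (fun _ => hf)
      (fun _ => c) (fun _ => hc) L hL α e d g hα hed hg
    rw [Fin.prod_const, pow_one] at key
    refine le_trans ?_ key
    rw [Nat.cast_le]
    have hmu : ∀ m : ℤ, (mu m : ℂ) = Pool.Agent.H373R2.T7.exI (fun n => ((Pool.Agent.H373R2.T7.muR n : ℝ) : ℂ)) m := by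
      intro m
      unfold mu Pool.Agent.H373R2.T7.exI Pool.Agent.H373R2.T7.muR
      split_ifs <;> simp
    refine card_le_card_of_injOn (fun i _ => i) (fun i hi => ?_) (fun i _ j _ hij => congrFun hij 0)
    simp only [coe_filter, Set.mem_setOf_eq, Fintype.mem_piFinset] at hi ⊢
    refine ⟨fun _ => hi.1, fun hcon => hi.2 ?_⟩
    intro q hq h' hh1 hh2 l X hX
    have h3 := hcon (fun _ => q) (fun _ => hq) (fun _ => h') (fun _ => ⟨hh1, hh2⟩) l univ univ_nonempty X hX
    simp only [univ_unique, prod_singleton] at h3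
    simp only [hmu]
    exact h3
  · obtain ⟨P₁, h1⟩ := Pool.Agent.N384.MQ.flat_quot V
    obtain ⟨P₂, h2⟩ := Pool.Agent.N384.MQ.flat_coset V
    obtain ⟨P₃, h3⟩ := Pool.Agent.N384.MQ.flat_prod V
    exact ⟨P₁ + P₂ + P₃, fun p hp _ => ⟨fun R S => h1 p (by omega) R S, fun H s => h2 p (by omega) H s,
      fun A B g k => h3 p (by omega) A B g k⟩⟩
  · exact Pool.Agent.N384.MQ.flat_poly d V hd

end Pool.Agent.Results.MP_0bfb7f_nt.ResidueFamilies
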