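import Pool.Agent.Y842.JC.Nat
import Pool.Agent.TH823.MRS.Circ5

/-!
# The Möbius function and arbitrary subsets of the primes: almost all shifts in windows of length `C log N`

The correlation sum `∑ n ≤ X, μ (n + h) Λ (n)` of the problem is `o(N)`, uniformly for `X ≤ N`, for almost all
shifts `h` in every window `(B, B + H]` with `B ≤ N` and `C(ε) log N ≤ H ≤ N`, also with an arbitrary weight
`g n` of modulus at most one (for instance the indicator function of an arbitrary set of primes).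
More generally the prime `n` may be replaced by a prime tuple with `f` fixed shifts (then `H ≥ C (log N) ^ f`) and
`s` further moving shifts.

From the starting files: the theorem of Matomäki, Radziwiłł and Tao on exponential sums of the Möbius function in
almost all short intervals (`Pool.Agent.TH823.MRS.mu_E`) and the mean square over the moving shifts for a general
bounded function (`Pool.Agent.Y842.JC.mainN`, so far used for the Liouville function).
From Mathlib: `ArithmeticFunction.moebius`: the Möbius function; `ArithmeticFunction.vonMangoldt`: the function `Λ`.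
-/

set_option autoImplicit false

namespace Pool.Agent.Results.MP_0bfb7f_nt.ShortWindows

open Finset

/-- the correlation sum with the shifts `a i` (fixed) and `x j` (moving) of the von Mangoldt function, the shift `h` of
the Möbius function and the weight `g` -/
noncomputable def corr {f s : ℕ} (g : ℕ → ℂ) (a : Fin f → ℕ) (x : Fin s → ℕ) (h X : ℕ) : ℂ :=
  ∑ n ∈ Icc 1 X, g n * (((∏ i, ArithmeticFunction.vonMangoldt (n + a i)) *
    (∏ j, ArithmeticFunction.vonMangoldt (n + x j)) * ArithmeticFunction.moebius (n + h) : ℝ) : ℂ)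

/-- Let `f ≥ 1`, `s ≥ 0`, `D` and `ε > 0`. There are `C` and `N₀` such that for all `N ≥ N₀` and all `H` with
`C (log N) ^ f ≤ H ≤ N`, all distinct `a 1, ..., a f ≤ H` of diameter at most `D`, all `B ≤ N` and all weights
`g x : ℕ → ℂ`, `x ∈ {1, ..., H} ^ s`, of modulus at most one: for all but at most `ε H ^ (s + 1)` of the pairs of a
vector `x ∈ {1, ..., H} ^ s` and a shift `h ∈ {B + 1, ..., B + H}` one has, for ALL `X ≤ N`,
`|∑ n ≤ X, g x n Λ (n + a 1) ⋯ Λ (n + a f) Λ (n + x 1) ⋯ Λ (n + x s) μ (n + h)| ≤ ε N`.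
(For `f = 1`, `a 1 = 0` and `s = 0` this is the sum `∑ n ≤ X, g n Λ (n) μ (n + h)`, which for `g = 1` is the sum
`∑ m ≤ X + h, μ (m) Λ (m - h)` of the problem with the shift `h` instead of `1`, and `H ≥ C log N` suffices.) -/
theorem result (f s : ℕ) (hf : 1 ≤ f) (D : ℕ) (ε : ℝ) (hε : 0 < ε) :
    ∃ C : ℝ, ∃ N₀ : ℕ, ∀ N H : ℕ, N₀ ≤ N → C * Real.log N ^ f ≤ H → H ≤ N →
      ∀ a : Fin f → ℕ, Function.Injective a → (∀ i, a i ≤ H) → (∀ i l, a i ≤ a l + D) →
      ∀ B : ℕ, B ≤ N → ∀ g : (Fin s → ℕ) → ℕ → ℂ, (∀ x n, ‖g x n‖ ≤ 1) →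
      ({x : (Fin s → ℕ) × ℕ | (∀ j, 1 ≤ x.1 j ∧ x.1 j ≤ H) ∧ (B + 1 ≤ x.2 ∧ x.2 ≤ B + H) ∧
        ∃ X : ℕ, X ≤ N ∧ ε * N < ‖corr (g x.1) a x.1 x.2 X‖}.ncard : ℝ) ≤ ε * (H : ℝ) ^ (s + 1) := by
  classical
  obtain ⟨C, N₀, h⟩ := Pool.Agent.Y842.JC.mainN (fun n => ((ArithmeticFunction.moebius n : ℤ) : ℂ))
    Pool.Agent.TH823.MRS.mu_le Pool.Agent.TH823.MRS.mu_E f s hf D ε hε
  refine ⟨C, N₀, fun N H hN hCH hHN a hinj haH haD B hB g hg => ?_⟩
  refine le_trans (le_of_eq ?_) (h N hN H hCH hHN a hinj haH haD B hB g hg)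
  rw [← Set.ncard_coe_finset]
  apply congrArg (Nat.cast : ℕ → ℝ)
  apply Set.ncard_congr (fun (x : (Fin s → ℕ) × ℕ) _ => (x.1, x.2 - B))
  · rintro ⟨x, y⟩ ⟨h1, ⟨h2, h3⟩, X, hX, h4⟩
    simp only at h1 h2 h3 h4
    simp only [coe_filter, mem_product, Fintype.mem_piFinset, mem_Icc, Set.mem_ofPred_eq]
    refine ⟨⟨h1, by omega, by omega⟩, X, hX, lt_of_lt_of_eq h4 ?_⟩
    unfold corr
    congr 1
    apply sum_congr rfl
    intro n _
    have e : n + (y - B) + B = n + y := by omega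
    rw [e]
    push_cast
    ring
  · rintro ⟨x, y⟩ ⟨x', y'⟩ ⟨_, ⟨h2, _⟩, _⟩ ⟨_, ⟨h2', _⟩, _⟩ hxy
    simp only [Prod.mk.injEq] at hxy h2 h2' ⊢
    exact ⟨hxy.1, by omega⟩
  · rintro ⟨x, y⟩ hxy
    simp only [coe_filter, mem_product, Fintype.mem_piFinset, mem_Icc, Set.mem_ofPred_eq] at hxy
    obtain ⟨⟨h1, h2, h3⟩, X, hX, h4⟩ := hxy
    refine ⟨(x, y + B), ⟨h1, ⟨by simp only; omega, by simp only; omega⟩, X, hX, lt_of_lt_of_eq h4 ?_⟩, ?_⟩
    · unfold corr
      congr 1
      apply sum_congr rfl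
      intro n _
      have e : n + y + B = n + (y + B) := by omega
      simp only [e]
      push_cast
      ring
    · simp only [Nat.add_sub_cancel]

end Pool.Agent.Results.MP_0bfb7f_nt.ShortWindows
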