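import Pool.Agent.Run7.h710.TR.Cnt
import Pool.Agent.Run7.h794.EX.Multi

/-!
# The Möbius function and shifted primes: all the multiples of all the shifts near an integer written by a transducer

The shift `1` of the problem is replaced by `h q`, for ALL `1 ≤ h ≤ k ^ J` and ALL the integers `q` at a distance of at most
`k ^ W` from `c + κ T(v)`, for almost all integers `v < a ^ k`, where the transducer `T` reads the digits of `v` in base `a` and
writes the digits of `T(v)` in base `b` (definitions in `Pool.Agent.Run7.h710.TR.Defs`).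

Method: if two words of `L` digits lead from the same state to the same state and different words are written, then the two
parts of the exponential sum over the integers `T(v)` which belong to these words cancel in part at the places where the
frequency has a digit which is not extremal. The passage from such exponential sums to correlations is from
the starting files and from helper794 (`Pool.Agent.N625.PT`, `Pool.Agent.Run7.h794.EX.Multi`).

From Mathlib: `ArithmeticFunction.vonMangoldt`: the function `Λ`; `ArithmeticFunction.moebius`: the Möbius function.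

Examples: the bitwise conjunction or disjunction of `v` and `m v` (the carries are the states); the integer whose digit `i`
is `f(x_i, x_{i+1}, …, x_{i+r})`, where `x_i` are the digits of `v` and `f` is not constant (one-sided cellular automata).
-/

set_option autoImplicit false

namespace Pool.Agent.Results.MP_0bfb7f_nt.TransducerMultiples

open Finset Pool.Agent.Run7.h710.TR

/-- The Möbius function on the integers, `0` at the integers `m ≤ 0`. -/
def mu (m : ℤ) : ℤ := if 1 ≤ m then ArithmeticFunction.moebius m.toNat else 0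

open Classical in
/-- Let `r`, `a`, `b ≥ 2`, `L ≥ 1`, `κ ≠ 0`, `B`, `A`, `J`, `W` and `U` be fixed, let `k` be large and `N = b ^ k`. Let an arbitrary transducer be given which reads digits `< a` and writes digits `< b` (with finitely or infinitely many
states) such that from every state two words of `L` digits lead to the same state, while different words are written; let it
begin in an arbitrary state `s` and read from the left or from the right,
and let `c` be an arbitrary integer with `|c| ≤ B N` (`k` must be large in terms of the fixed numbers only). For each of at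
most `k ^ A` indices `l` let `α l ≥ 1`, let `e l j * n + d l j` (`j < r`) be arbitrary linear forms with nonnegative
coefficients `≤ b ^ (B k)` and let `g l` be an arbitrary function on the integers with values of modulus at most `1`.

Then all the `v < a ^ k`, with at most `a ^ k / k ^ U` exceptions, have the following property, where `v'` is the integer
which is written when `v` is read: for ALL integers `q` with `|q - (c + κ * v')| ≤ k ^ W`, ALL `1 ≤ h ≤ k ^ J`, all `l` and
all `X ≤ k ^ A N / α l`, `|∑ n ≤ X, g l n * (∏ j, Λ (e l j * n + d l j)) * μ (α l * n + h * q)| ≤ N / k ^ U`.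
(For `r = 1`, `α = e = 1`, `d = 0` and `g = 1` this is the sum `∑ n ≤ X, Λ (n) μ (n + h q)`, the sum of the problem with
the shift `h q` instead of `1`.) -/
theorem result (r a b L : ℕ) (hb : 2 ≤ b) (hL : 1 ≤ L) (κ : ℤ) (hκ : κ ≠ 0) (B A J W U : ℕ) :
    ∃ k₀ : ℕ, ∀ k : ℕ, k₀ ≤ k → ∀ (S : Type) (δ : S → ℕ → S) (o : S → ℕ → ℕ), Transducer a b L δ o →
      ∀ (left : Bool) (s : S) (c : ℤ), |c| ≤ B * (b : ℤ) ^ k →
      ∀ M : ℕ, M ≤ k ^ A → ∀ (α : Fin M → ℕ) (e d : Fin M → Fin r → ℕ) (g : Fin M → ℕ → ℂ),
        (∀ l, 1 ≤ α l) → (∀ l j, e l j ≤ b ^ (B * k) ∧ d l j ≤ b ^ (B * k)) → (∀ l n, ‖g l n‖ ≤ 1) →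
        (((range (a ^ k)).filter fun v => ¬ ∀ q : ℤ, |q - (c + κ * (image a b δ o left k s v : ℕ))| ≤ (k : ℤ) ^ W →
          ∀ h : ℕ, 1 ≤ h → h ≤ k ^ J → ∀ l, ∀ X : ℕ, α l * X ≤ k ^ A * b ^ k →
          ‖∑ n ∈ Icc 1 X, g l n * (∏ j, (ArithmeticFunction.vonMangoldt (e l j * n + d l j) : ℂ)) *
            (mu (α l * n + h * q) : ℂ)‖ ≤ (b : ℝ) ^ k / (k : ℝ) ^ U).card : ℝ) ≤ (a : ℝ) ^ k / (k : ℝ) ^ U := by
  obtain ⟨k₀, h0⟩ := Pool.Agent.Run7.h794.EX.multi 1 hb (fun _ => κ) (fun _ => Cl a b L)
    (fun _ => tr_tcls a b L hb hL κ hκ) (fun _ => Pool.Agent.H373R2.T7.muR)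
    (fun _ => Pool.Agent.Y885.fine_mu) r B A J W U
  refine ⟨k₀, fun k hk S δ o hT left s c hc M hM α e d g hα had hg => ?_⟩
  have key := h0 k hk (fun _ => law a b δ o left k s) (fun _ => ⟨S, δ, o, left, s, hT, rfl⟩) (fun _ => c) (fun _ => hc) M hM α
    e d g hα had hg
  have hmu : ∀ m : ℤ, (mu m : ℂ) = Pool.Agent.H373R2.T7.exI (fun n => ((Pool.Agent.H373R2.T7.muR n : ℝ) : ℂ)) m := by
    intro m
    unfold mu Pool.Agent.H373R2.T7.exI Pool.Agent.H373R2.T7.muR
    split_ifs <;> simp
  refine exceptions hb hT left k s (fun v => ∀ q : ℤ, |q - (c + κ * (v : ℕ))| ≤ (k : ℤ) ^ W → ∀ h : ℕ, 1 ≤ h → h ≤ k ^ J →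
          ∀ l, ∀ X : ℕ, α l * X ≤ k ^ A * b ^ k →
          ‖∑ n ∈ Icc 1 X, g l n * (∏ j, (ArithmeticFunction.vonMangoldt (e l j * n + d l j) : ℂ)) *
            (mu (α l * n + h * q) : ℂ)‖ ≤ (b : ℝ) ^ k / (k : ℝ) ^ U) U ?_
  refine le_trans (le_of_eq ?_) key
  symm
  apply sum_nbij' (fun v => v 0) (fun v _ => v)
  · intro v hv
    exact Fintype.mem_piFinset.1 hv 0
  · intro v hv
    exact Fintype.mem_piFinset.2 fun _ => hv
  · intro v _
    funext i
    rw [Subsingleton.elim i 0]
  · intro v _
    rfl
  · intro v hv
    have hprod : ∏ _i : Fin 1, law a b δ o left k s (v _i) = law a b δ o left k s (v 0) := by simp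
    rw [hprod]
    apply if_congr _ rfl rfl
    constructor
    · intro h1 q hq h hh1 hh2 l X hX
      have h2 := h1 (fun _ => q) (fun i => by rw [Subsingleton.elim i 0]; exact hq) (fun _ => h) (fun _ => ⟨hh1, hh2⟩) l
        {0} (singleton_nonempty 0) X hX
      simp only [prod_singleton] at h2
      simp only [hmu]
      exact h2
    · intro h1 q hq h hh l I hI X hX
      have hI0 : I = {0} := by
        obtain ⟨i, hi⟩ := hI
        ext j
        rw [mem_singleton]
        constructor
        · intro _; exact Subsingleton.elim _ _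
        · intro hj; rw [hj, ← Subsingleton.elim i 0]; exact hi
      have h2 := h1 (q 0) (hq 0) (h 0) (hh 0).1 (hh 0).2 l X hX
      rw [hI0]
      simp only [prod_singleton]
      simp only [hmu] at h2
      exact h2

end Pool.Agent.Results.MP_0bfb7f_nt.TransducerMultiples
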